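import Pool.Agent.MP_fcd29e_an.H11.CS

/-!
Stereographic coordinates on the null quadric.
-/

set_option autoImplicit false

open Complex Set Filter Topology
open scoped ContDiff ComplexConjugate

namespace Pool.Agent.MP_fcd29e_an.H54

open Pool.Agent.MP_fcd29e_an.H11

namespace CQP

variable {ι : Type} [Fintype ι]

/-- The antipode of a null vector. -/
def xi (x : V ι) : V ι := (x.1, -x.2.1, -x.2.2)

theorem B_comm (u v : V ι) : B u v = B v u := by
  simp only [B]
  congr 2
  · ring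
  · exact Finset.sum_congr rfl fun k _ => by ring

theorem B_add (u v w : V ι) : B (u + v) w = B u w + B v w := (Bl w).map_add u v

theorem B_smul (a : ℂ) (u w : V ι) : B (a • u) w = a * B u w := (Bl w).map_smul a u

theorem B_add' (u v w : V ι) : B w (u + v) = B w u + B w v := by
  rw [B_comm, B_add, B_comm u, B_comm v]

theorem B_smul' (a : ℂ) (u w : V ι) : B w (a • u) = a * B w u := by
  rw [B_comm, B_smul, B_comm u]

theorem B_cj (u v : V ι) : B (cj u) (cj v) = conj (B u v) := by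
  simp only [B, cj, map_add, map_neg, map_mul, map_div₀, map_sum, map_ofNat]
  congr 2
  exact Finset.sum_congr rfl fun k _ => by ring

omit [Fintype ι] in
theorem cj_add (u v : V ι) : cj (u + v) = cj u + cj v := by
  refine Prod.ext ?_ (Prod.ext ?_ ?_)
  · simp [cj]
  · funext k; simp [cj]
  · funext k; simp [cj]

omit [Fintype ι] in
theorem cj_smul (a : ℂ) (u : V ι) : cj (a • u) = conj a • cj u := by
  refine Prod.ext ?_ (Prod.ext ?_ ?_)
  · simp [cj]
  · funext k; simp [cj]
  · funext k; simp [cj]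

omit [Fintype ι] in
theorem cj_cj (u : V ι) : cj (cj u) = u := by
  refine Prod.ext ?_ (Prod.ext ?_ ?_)
  · simp [cj]
  · funext k; simp [cj]
  · funext k; simp [cj]

theorem B_xi (u x : V ι) : B u (xi x) = -2 * (u.1 * x.1) - B u x := by
  simp only [B, xi, Pi.neg_apply, mul_neg, ← neg_add, Finset.sum_neg_distrib]
  ring

theorem xp_eq (x u : V ι) : xp x u = x + u + (B u u / (4 * x.1 ^ 2)) • xi x := rfl

theorem rsq_Jm (u : V ι) (h : u.1 = 0) : 2 * rsq (Jm u) = (B u (cj u)).re - (B u u).re := by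
  simp only [rsq, Jm, Fintype.sum_sum_type, Sum.elim_inl, Sum.elim_inr, B, cj, h, zero_mul,
    neg_zero, zero_add, div_ofNat_re, div_ofNat_im, re_sum, ← Finset.sum_add_distrib,
    Finset.mul_sum, Finset.sum_div, ← Finset.sum_sub_distrib]
  refine Finset.sum_congr rfl fun k _ => ?_
  simp only [add_re, mul_re, sub_re, sub_im, conj_re, conj_im]
  ring

theorem re_nonneg (u : V ι) (h : u.1 = 0) : 0 ≤ (B u (cj u)).re := by
  simp only [B, cj, h, zero_mul, neg_zero, zero_add, div_ofNat_re, re_sum]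
  refine div_nonneg (Finset.sum_nonneg fun k _ => ?_) (by norm_num)
  simp only [add_re, mul_re, conj_re, conj_im]
  nlinarith [sq_nonneg (u.2.1 k).re, sq_nonneg (u.2.1 k).im, sq_nonneg (u.2.2 k).re,
    sq_nonneg (u.2.2 k).im]

omit [Fintype ι] in
theorem Jm_zero {u : V ι} (h : Jm u = 0) (k : ι) : u.2.2 k = conj (u.2.1 k) := by
  have h1 := congrFun h (Sum.inl k)
  have h2 := congrFun h (Sum.inr k)
  simp only [Jm, Sum.elim_inl, Sum.elim_inr, Pi.zero_apply] at h1 h2
  have h3 : (u.2.2 k - conj (u.2.1 k)) / 2 = 0 := Complex.ext h1 h2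
  linear_combination 2 * h3

theorem rsq_zero {κ : Type} [Fintype κ] {y : κ → ℝ} (h : rsq y = 0) : y = 0 := by
  funext k
  exact pow_eq_zero_iff two_ne_zero |>.1
    ((Finset.sum_eq_zero_iff_of_nonneg fun i _ => sq_nonneg (y i)).1 h k (Finset.mem_univ k))

section pt

variable {x : V ι} (hx : x ∈ cone ι)
include hx

theorem fst_ne : x.1 ≠ 0 := fun h => by
  have := hx.2.2
  rw [h] at this
  simp at this

theorem fst_conj : conj x.1 = x.1 := congrArg Prod.fst hx.1

theorem cj_xi : cj (xi x) = xi x := by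
  have h1 : ∀ k, conj (x.2.2 k) = x.2.1 k := fun k => congrFun (congrArg (·.2.1) hx.1) k
  have h2 : ∀ k, conj (x.2.1 k) = x.2.2 k := fun k => congrFun (congrArg (·.2.2) hx.1) k
  refine Prod.ext (fst_conj hx :) (Prod.ext ?_ ?_)
  · funext k; simp [cj, xi, h1]
  · funext k; simp [cj, xi, h2]

theorem B_x_xi : B x (xi x) = -2 * x.1 ^ 2 := by rw [B_xi, hx.2.1]; ring

theorem B_xi_xi : B (xi x) (xi x) = 0 := by
  rw [B_xi, B_comm, B_x_xi hx]
  simp only [xi]
  ring

theorem cj_mem {u : V ι} (hu : u ∈ Uc x) : cj u ∈ Uc x := by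
  refine ⟨?_, ?_⟩
  · have : u.1 = 0 := hu.1
    simp [cj, this]
  · have h := B_cj u x
    have h2 : B u x = 0 := hu.2
    rwa [hx.1, h2, map_zero] at h

theorem B_gen {u v : V ι} (hu : u ∈ Uc x) (hv : v ∈ Uc x) (s t : ℂ) :
    B (x + u + s • xi x) (x + v + t • xi x) = B u v - 2 * x.1 ^ 2 * (s + t) := by
  have h1 : B u x = 0 := hu.2
  have h2 : B v x = 0 := hv.2
  have h3 : B u (xi x) = 0 := by rw [B_xi, h1, show u.1 = 0 from hu.1]; ring
  have h4 : B v (xi x) = 0 := by rw [B_xi, h2, show v.1 = 0 from hv.1]; ring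
  simp only [B_add, B_add', B_smul, B_smul', hx.2.1, h1, h3, B_comm x v, h2, B_x_xi hx,
    B_comm (xi x) x, B_comm (xi x) v, h4, B_xi_xi hx]
  ring

theorem B_xp {u : V ι} (hu : u ∈ Uc x) : B (xp x u) (xp x u) = 0 := by
  have := fst_ne hx
  rw [xp_eq, B_gen hx hu hu]
  field_simp
  ring

theorem xp_ne {u : V ι} (hu : u ∈ Uc x) : xp x u ≠ 0 := fun h => by
  have h1 : B u x = 0 := hu.2
  have h3 : B u (xi x) = 0 := by rw [B_xi, h1, show u.1 = 0 from hu.1]; ring
  have h4 : B (xp x u) (xi x) = -2 * x.1 ^ 2 := by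
    rw [xp_eq, B_add, B_add, B_smul, B_x_xi hx, h3, B_xi_xi hx]; ring
  have h5 : B (0 : V ι) (xi x) = 0 := by simp [B]
  rw [h, h5] at h4
  exact mul_ne_zero (by norm_num) (pow_ne_zero 2 (fst_ne hx)) h4.symm

theorem cj_xp (u : V ι) :
    cj (xp x u) = x + cj u + (conj (B u u) / (4 * x.1 ^ 2)) • xi x := by
  rw [xp_eq, cj_add, cj_add, cj_smul, hx.1, cj_xi hx]
  simp only [map_div₀, map_mul, map_pow, map_ofNat, fst_conj hx]

theorem B_xp_cj {u : V ι} (hu : u ∈ Uc x) :
    (B (xp x u) (cj (xp x u))).re = 2 * rsq (Jm u) := by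
  have := fst_ne hx
  have h : B (xp x u) (cj (xp x u)) = B u (cj u) - (B u u + conj (B u u)) / 2 := by
    rw [cj_xp hx, xp_eq, B_gen hx hu (cj_mem hx hu)]
    field_simp
    ring
  rw [h, rsq_Jm u hu.1]
  simp only [sub_re, div_ofNat_re, add_re, conj_re]
  ring

theorem xp_real {v : V ι} (hv : v ∈ Uc x) (hr : cj v = v) : xp x v ∈ cone ι := by
  have h1 : conj (B v v) = B v v := by rw [← B_cj, hr]
  refine ⟨by rw [cj_xp hx, hr, h1, xp_eq], B_xp hx hv, ?_⟩
  have h2 : 0 ≤ (B v v).re := by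
    have := re_nonneg v hv.1
    rwa [hr] at this
  have h3 : x.1 = (x.1.re : ℂ) := (conj_eq_iff_re.1 (fst_conj hx)).symm
  have h4 : B v v = ((B v v).re : ℂ) := (conj_eq_iff_re.1 h1).symm
  have h5 : (xp x v).1 = ((x.1.re + (B v v).re / (4 * x.1.re ^ 2) * x.1.re : ℝ) : ℂ) := by
    push_cast
    rw [← h3, ← h4]
    simp [xp, show v.1 = 0 from hv.1]
  rw [h5, ofReal_re]
  have := hx.2.2
  positivity

end pt

omit [Fintype ι] in
theorem cj_rp (u : V ι) : cj (rp u) = rp u := by
  rw [rp, cj_smul, cj_add, cj_cj, add_comm]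
  simp only [map_div₀, map_one, map_ofNat]

theorem contDiff_rp : ContDiff ℝ ∞ (rp : V ι → V ι) := by
  have hc : ContDiff ℝ ∞ (fun z : ℂ => conj z) := conjCLE.contDiff
  have h : ContDiff ℝ ∞ (cj : V ι → V ι) := by
    refine (hc.comp contDiff_fst).prodMk (ContDiff.prodMk ?_ ?_)
    · exact contDiff_pi.2 fun k => hc.comp ((contDiff_apply ℝ ℂ k).comp contDiff_snd.snd)
    · exact contDiff_pi.2 fun k => hc.comp ((contDiff_apply ℝ ℂ k).comp contDiff_snd.fst)
  exact (contDiff_id.add h).const_smul (1 / 2 : ℂ)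

/-- `Jm` as a real linear map. -/
noncomputable def JL (x : V ι) : Uc x →ₗ[ℝ] (ι ⊕ ι → ℝ) where
  toFun u := Jm (u : V ι)
  map_add' u v := by
    funext k
    rcases k with k | k <;> simp [Jm] <;> ring
  map_smul' c u := by
    funext k
    rcases k with k | k <;> simp [Jm] <;> ring

end CQP

open CQP in
theorem sqp (hGR : SGR) : SQP := by
  intro ι _ x hx
  obtain ⟨Q, hQ⟩ := hGR.form ι
  have hfun : xp x = fun u => x + u + ((4 * x.1 ^ 2)⁻¹ * Q u u) • xi x := by
    funext u
    rw [xp_eq, hQ, div_eq_inv_mul]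
  refine ⟨fun u hu => ⟨B_xp hx hu, xp_ne hx hu, B_xp_cj hx hu, ?_, fun h => ?_, fun c hc => ?_⟩,
    ⟨LinearMap.toContinuousLinearMap (JL x), fun _ => rfl, fun η h1 h2 => ?_⟩, ?_, ?_, fun u => ?_,
    ?_, contDiff_rp, fun y hy => ?_, fun a u hu h => ?_⟩
  · exact xp_real hx ((Uc x).smul_mem _ ((Uc x).add_mem hu (cj_mem hx hu))) (cj_rp u)
  · have h1 : cj u = u := by
      refine Prod.ext ?_ (Prod.ext ?_ ?_)
      · simp [cj, show u.1 = 0 from hu.1]
      · funext k; simp [cj, Jm_zero h k]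
      · funext k; simp [cj, Jm_zero h k]
    rw [rp, h1, ← two_smul ℂ u, smul_smul]
    norm_num
  · have hc0 : c ≠ 0 := by
      rintro rfl
      have := hc.2.2
      simp at this
    have h1 : B (c • xp x u) (cj (c • xp x u)) = 0 := by rw [hc.1]; exact hc.2.1
    rw [cj_smul, B_smul, B_smul', ← mul_assoc] at h1
    have h2 := (mul_eq_zero.1 h1).resolve_left (mul_ne_zero hc0 ((map_ne_zero _).2 hc0))
    have h3 := B_xp_cj hx hu
    rw [h2, zero_re] at h3
    exact rsq_zero (by linarith)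
  · have e1 := Jm_zero (u := (η : V ι)) h1
    have e2 := Jm_zero (u := ((I • η : Uc x) : V ι)) h2
    have e3 : ∀ k, (η : V ι).2.2 k = 0 := fun k => by
      have h3 := e2 k
      simp only [Submodule.coe_smul, Prod.smul_snd, Prod.smul_fst, Pi.smul_apply, smul_eq_mul,
        map_mul, conj_I, ← e1 k] at h3
      linear_combination (-I / 2) * h3 + ((η : V ι).2.2 k) * I_mul_I
    refine Subtype.ext (Prod.ext η.2.1 (Prod.ext ?_ ?_))
    · funext k
      have := e1 k
      rw [e3 k] at this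
      exact (map_eq_zero _).1 this.symm
    · exact funext e3
  · simp [xp, B]
  · refine Prod.ext ?_ (Prod.ext ?_ ?_)
    · simp [rp, cj]
    · funext k; simp [rp, cj]
    · funext k; simp [rp, cj]
  · rw [hfun]
    have h1 : AnalyticAt ℂ (fun u : V ι => Q u u) u :=
      (Q.analyticAt_bilinear (u, u)).comp₂ analyticAt_id analyticAt_id
    exact (analyticAt_const.add analyticAt_id).add
      ((analyticAt_const.mul h1).smul analyticAt_const)
  · rw [hfun]
    have h1 : HasFDerivAt (fun u : V ι => Q u u) (0 : V ι →L[ℂ] ℂ) 0 := by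
      have := (Q.hasFDerivAt (x := 0)).clm_apply (hasFDerivAt_id (0 : V ι))
      simpa using this
    have h2 := (((hasFDerivAt_id (0 : V ι)).const_add x).add
      ((h1.const_mul (4 * x.1 ^ 2)⁻¹).smul_const (xi x))).fderiv
    exact Eq.trans h2 (ContinuousLinearMap.ext fun v => by simp)
  · have h0 := fst_ne hx
    refine ⟨y.1 / x.1, y + (-(y.1 / x.1)) • x, ⟨?_, ?_⟩, ?_⟩
    · simp only [Prod.fst_add, Prod.smul_fst, smul_eq_mul]
      field_simp
      ring
    · rw [B_add, B_smul, B_comm y, hy, hx.2.1]; ring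
    · rw [neg_smul]; abel
  · have h1 := congrArg Prod.fst h
    simp only [Prod.fst_add, Prod.smul_fst, smul_eq_mul, show u.1 = 0 from hu.1, add_zero,
      Prod.fst_zero] at h1
    have ha := (mul_eq_zero.1 h1).resolve_right (fst_ne hx)
    rw [ha, zero_smul, zero_add] at h
    exact ⟨ha, h⟩

end Pool.Agent.MP_fcd29e_an.H54
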