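import Pool.Agent.MP_fcd29e_an.H81.Spec

/-! Solving for line bundles in degree `n - 1`. -/

set_option autoImplicit false

open Pool.Agent.MP_fcd29e_an.H81 MeasureTheory Complex Set Filter Topology Metric
open scoped ContDiff ComplexConjugate ENNReal NNReal

namespace Pool.Agent.MP_fcd29e_an.H54

section Gen
variable {N : ℕ} {U : Set (E N)} {a b : ℤ}

theorem hom_sum {ι : Type} (s : Finset ι) {F : ι → E N → ℂ} (h : ∀ i, Hom U a b (F i)) :
    Hom U a b fun z => ∑ i ∈ s, F i z := fun c hc z hz => by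
  simp only [fun i => h i c hc z hz, Finset.mul_sum]

theorem hom_sub {f g : E N → ℂ} (hf : Hom U a b f) (hg : Hom U a b g) :
    Hom U a b fun z => f z - g z := fun c hc z hz => by
  simp only [hf c hc z hz, hg c hc z hz, mul_sub]

theorem hom_const_mul {f : E N → ℂ} (hf : Hom U a b f) (d : ℂ) :
    Hom U a b fun z => d * f z := fun c hc z hz => by
  simp only [hf c hc z hz]; ring

theorem hom_thb {f : E N → ℂ} (hf : Hom U a b f) (j : Fin N) :
    Hom U a (b - 1) fun z => thb j z * f z := fun c hc z hz => by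
  have h1 : conj c ≠ 0 := by simpa using hc
  have h2 : ((‖c‖ ^ 2 : ℝ) : ℂ) = c * conj c := by
    rw [Complex.mul_conj, Complex.normSq_eq_norm_sq]
  simp only [hf c hc z hz, thb, norm_smul, mul_pow, ofReal_mul, h2, PiLp.smul_apply, smul_eq_mul,
    zpow_sub_one₀ h1]
  field_simp

theorem hom_conj {f : E N → ℂ} (hf : Hom U a b f) (j : Fin N) :
    Hom U a (b + 1) fun z => conj (z j) * f z := fun c hc z hz => by
  have h1 : conj c ≠ 0 := by simpa using hc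
  simp only [hf c hc z hz, PiLp.smul_apply, smul_eq_mul, map_mul, zpow_add_one₀ h1]
  ring

theorem ah_sum {ι : Type} [Fintype ι] {F : ι → E N → ℂ} (h : ∀ i, AH U a b (F i)) :
    AH U a b fun z => ∑ i, F i z := fun c hc => by
  filter_upwards [ae_all_iff.2 fun i => h i c hc] with z hz hU
  simp only [fun i => hz i hU, Finset.mul_sum]

theorem contDiffOn_thb (j : Fin N) : ContDiffOn ℝ ∞ (thb j) (E0 N) := by
  have h1 : ContDiff ℝ ∞ fun z : E N => ((‖z‖ ^ 2 : ℝ) : ℂ) :=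
    ofRealCLM.contDiff.comp (contDiff_norm_sq ℝ)
  have h2 : ContDiffOn ℝ ∞ (fun z : E N => ((‖z‖ ^ 2 : ℝ) : ℂ)⁻¹) (E0 N) := by
    refine h1.contDiffOn.inv fun z hz => ?_
    have : ‖z‖ ≠ 0 := norm_ne_zero_iff.2 hz
    exact_mod_cast pow_ne_zero 2 this
  exact ((contDiff_coord j).contDiffOn.mul h2).congr fun z _ => div_eq_mul_inv _ _

theorem alt_sub {q : ℕ} {x y : (Fin q → Fin N) → ℂ} (hx : altA x) (hy : altA y) :
    altA fun J => x J - y J := fun J σ => by simp only [hx J σ, hy J σ, mul_sub]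

theorem eps_id : eps (id : Fin N → Fin N) = 1 := by
  have : (Matrix.of fun a b : Fin N => if id a = b then (1 : ℂ) else 0) = 1 := by
    ext a b; simp [Matrix.one_apply]
  rw [eps, this, Matrix.det_one]

theorem dzb_kap {κ : ℝ → ℝ} (hκ : Kap κ) (l : Fin N) (z : E N) :
    dzb l (fun z : E N => (κ (‖z‖ ^ 2) : ℂ)) z = (deriv κ (‖z‖ ^ 2) : ℝ) * z l := by
  have h1 : DifferentiableAt ℝ (fun z : E N => ‖z‖ ^ 2) z :=
    ((contDiff_norm_sq ℝ (n := 1)).differentiable one_ne_zero) z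
  have h2 : HasDerivAt κ (deriv κ (‖z‖ ^ 2)) (‖z‖ ^ 2) :=
    ((hκ.smooth.differentiable (by simp)) _).hasDerivAt
  have := dzb_comp_real l (r := fun z : E N => ‖z‖ ^ 2) h1 h2
  rw [dzb_normSq] at this
  exact this

theorem wl_sum (t1 : StmtT1) {ρ : E N → ℝ} (ho : IsOpen (Op ρ)) {k : ℕ} {V : Fin N → E N → ℂ}
    (hV : ∀ l, WL ρ k (V l)) (c : Fin N → ℂ) : WL ρ k fun z => ∑ l, V l z * c l := by
  have h0 : (0 : E N) ∉ Op ρ := fun h => h.1 rfl
  refine ⟨Finset.aestronglyMeasurable_fun_sum _ fun l _ => (hV l).1.mul_const _, ?_, ?_⟩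
  · filter_upwards [ae_all_iff.2 fun l => (hV l).2.1] with z hz hρ
    simp [fun l => hz l hρ]
  · have : (fun z => (∑ l, V l z * c l) / (ρ z : ℂ) ^ k) =
        fun z => ∑ l, c l * (V l z / (ρ z : ℂ) ^ k) := by
      funext z
      rw [Finset.sum_div]
      exact Finset.sum_congr rfl fun l _ => by ring
    rw [this]
    exact (t1 N _ ho h0).2.1 _ _ _ fun l _ =>
      ((t1 N _ ho h0).1 _ (hV l).2.2).2.2.2.2.1 (fun _ => c l) continuousOn_const

theorem tc_const_mul (ρ : E N → ℝ) (A : ℝ) (j : Fin N) (c : ℂ) (G : E N → ℂ) (x : E N) :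
    Tc ρ A j (fun y => c * G y) x = c * Tc ρ A j G x := by
  unfold Tc
  rw [← integral_const_mul]
  exact integral_congr_ae (Eventually.of_forall fun y => by ring)

end Gen

theorem lb (L : Lv1) : StmtLB := by
  intro q ρ φ hρ hφ k m hm1 hm2 f hf hfS hfD
  obtain ⟨oO, oP, cO, -, -, -, -, -, -, -, -, hWL⟩ := L.c1 _ ρ hρ
  have z0 : (0 : E (q + 3)) ∉ E0 (q + 3) := cone_E0.1
  have sub : Om ρ ⊆ E0 (q + 3) := fun z hz => hz.1
  have T0 := L.t1 _ _ isOpen_E0 z0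
  have TO := L.t1 _ _ oO cO.1
  have S0 := (L.sb (q + 3)).1 _ isOpen_E0 z0
  have ae0 : ∀ᵐ z : E (q + 3), z ≠ 0 := by rw [ae_iff]; simp
  have r0 : (volume : Measure (E (q + 3))).restrict (E0 (q + 3)) = volume :=
    restrict_compl_singleton 0
  have toO : ∀ g, L2 (E0 (q + 3)) g → L2 (Om ρ) g := fun g hg => (T0.1 g hg).2.2.2.2.2.2 _ sub
  have int0 : ∀ g ψ, L2 (E0 (q + 3)) g → Test (E0 (q + 3)) ψ → Integrable fun z => g z * ψ z :=
    fun g ψ hg hψ => ((T0.1 g hg).2.2.1 ψ hψ.1.continuous hψ.2.1 hψ.2.2).1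
  have tdz : ∀ ψ, Test (E0 (q + 3)) ψ → ∀ l, Test (E0 (q + 3)) (dzb l ψ) :=
    fun ψ hψ l => ((T0.2.2.2.1 ψ hψ).2.2.1 l).2
  obtain ⟨⟨κ, hκ⟩, T3⟩ := L.t3
  have A2 := L.al2 (q + 2)
  -- the form `h`
  set h : Arr (q + 3) (q + 1 + 1) := wd thb f with hh
  have falt : ∀ z : E (q + 3), z ≠ 0 → altA fun J => f J z := fun z hz J σ => hf.alt J σ z hz
  have halt : ∀ z : E (q + 3), z ≠ 0 → altA fun J => h J z := fun z hz =>
    ((L.al1 (q + 3) (q + 1) 0 fun j => thb j z).1 _).1 (falt z hz)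
  have hform : ∀ J, h J = fun z => ∑ a : Fin (q + 1 + 1),
      (-1) ^ (a : ℕ) * (thb (J a) z * f (a.removeNth J) z) := fun J => by
    funext z
    simp only [hh, wd, wdA, mul_assoc]
  have hhom : ∀ J, Hom (E0 (q + 3)) m (-(q + 1 + 1 : ℕ)) (h J) := fun J => by
    rw [hform, show (-(q + 1 + 1 : ℕ) : ℤ) = -(q + 1 : ℕ) - 1 by push_cast; ring]
    exact hom_sum _ fun a => hom_const_mul (hom_thb (hf.hom _) _) _
  have hS : ∀ J, Sob (E0 (q + 3)) (k + 1) (h J) := fun J => by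
    rw [hform]
    exact (S0 (k + 1)).2.1 _ _ _ fun a _ =>
      ((S0 (k + 1)).1 _ (((S0 (k + 1)).1 _ (hfS _)).2.2.2.1 _ (contDiffOn_thb _))).2.2.2.1
        (fun _ => (-1) ^ (a : ℕ)) contDiffOn_const
  have hL : ∀ J, L2 (E0 (q + 3)) (h J) := fun J => ((S0 (k + 1)).1 _ (hS J)).1
  have fL : ∀ J, L2 (E0 (q + 3)) (f J) := fun J => ((S0 (k + 1)).1 _ (hfS J)).1
  have hD : DB (Om ρ) h fun J z => -wd thb (0 : Arr (q + 3) (q + 1 + 1)) J z :=
    (((L.frm _ (q + 1) _ oO cO.1).1 f 0 hfD).2.2.2 (fun J => toO _ (fL J))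
      fun J => TO.2.2.1 _ continuousOn_const).2.2
  -- the divergence
  let X : Fin (q + 3) → E (q + 3) → ℂ := fun l z => (-1) ^ (l : ℕ) * h l.succAbove z
  have XS : ∀ l, Sob (E0 (q + 3)) (k + 1) (X l) := fun l =>
    ((S0 (k + 1)).1 _ (hS _)).2.2.2.1 (fun _ => (-1) ^ (l : ℕ)) contDiffOn_const
  have XL : ∀ l, L2 (E0 (q + 3)) (X l) := fun l => ((S0 (k + 1)).1 _ (XS l)).1
  choose g hg gS using fun l => (S0 k).2.2.2 (X l) l (XS l)
  have gL : ∀ l, L2 (E0 (q + 3)) (g l) := fun l => ((S0 k).1 _ (gS l)).1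
  let Θ : E (q + 3) → ℂ := fun z => ∑ l, g l z
  have ΘS : Sob (E0 (q + 3)) k Θ := (S0 k).2.1 _ _ _ fun l _ => gS l
  have ΘL : L2 (E0 (q + 3)) Θ := ((S0 k).1 _ ΘS).1
  have ΘH : AH (E0 (q + 3)) m (-(q + 3 : ℕ)) Θ := by
    have T2 := (L.t2 (q + 3) m (-(q + 1 + 1 : ℕ))).1 _ isOpen_E0 cone_E0
    rw [show (-(q + 3 : ℕ) : ℤ) = -(q + 1 + 1 : ℕ) - 1 by push_cast; ring]
    exact ah_sum fun l => T2.2.2.2.2 l _ _ (XL l) (gL l)
      (T2.1 _ (hom_const_mul (hhom _) _)) (hg l)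
  have key : ∀ ψ, Test (E0 (q + 3)) ψ → ∫ z, ∑ l, X l z * dzb l ψ z = -∫ z, Θ z * ψ z := by
    intro ψ hψ
    rw [integral_finsetSum _ fun l _ => int0 _ _ (XL l) (tdz ψ hψ l)]
    have h1 := fun l => hg l ψ hψ
    simp only [r0] at h1
    simp only [h1, Θ, Finset.sum_mul]
    rw [integral_finsetSum _ fun l _ => int0 _ _ (gL l) hψ, Finset.sum_neg_distrib]
  have Θ0 : ∀ᵐ z, z ∈ Om ρ → Θ z = 0 := by
    refine TO.2.2.2.2.1 Θ (TO.1 _ (toO _ ΘL)).1 fun ψ hψ => ?_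
    have hψ0 := (TO.2.2.2.1 ψ hψ).2.2.2.2.2 _ sub
    have h1 := hD id ψ hψ
    have h2 : ∫ z in Om ρ, ∑ l, X l z * dzb l ψ z = ∫ z, ∑ l, X l z * dzb l ψ z := by
      have h3 := fun l => (TO.1 _ (toO _ (XL l))).2.2.1 _
        ((TO.2.2.2.1 ψ hψ).2.2.1 l).2.1.continuous ((TO.2.2.2.1 ψ hψ).2.2.1 l).2.2.1
        ((TO.2.2.2.1 ψ hψ).2.2.1 l).2.2.2
      rw [integral_finsetSum _ fun l _ => (h3 l).1, integral_finsetSum _ fun l _ =>
        (h3 l).1.integrableOn]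
      exact Finset.sum_congr rfl fun l _ => (h3 l).2
    have h4 : ∫ z in Om ρ, ∑ l, X l z * dzb l ψ z = 0 := by
      refine Eq.trans ?_ (h1.trans ?_)
      · rfl
      · simp [wd, wdA]
    rw [((TO.1 _ (toO _ ΘL)).2.2.1 ψ hψ.1.continuous hψ.2.1 hψ.2.2).2, ← neg_eq_zero,
      ← key ψ hψ0, ← h2, h4]
  have ΘW : WL ρ k Θ := L.har _ ρ hρ k Θ ΘS Θ0
  have zX : ∀ z : E (q + 3), z ≠ 0 → ∑ l, z l * X l z = 0 := fun z hz => by
    have h1 := ((A2.1 _ (halt z hz)).1 (fun j => z j) id)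
    have h2 := ((L.al1 (q + 3) (q + 1) 0 fun j => z j).1 fun J => f J z).2.2.2.2.2.2.2
      ((‖z‖ ^ 2 : ℝ) : ℂ)⁻¹ id
    have h3 : (fun J => h J z) =
        wdA (fun j => ((‖z‖ ^ 2 : ℝ) : ℂ)⁻¹ * z j) fun J => f J z := by
      funext J
      simp only [hh, wd, thb, div_eq_inv_mul]
    rw [eps_id, one_mul] at h1
    rw [← h3] at h2
    exact h1.symm.trans h2
  have κΘ : ∫ z, (κ (‖z‖ ^ 2) : ℂ) * Θ z = 0 := by
    have h1 := key _ ((T3 (q + 3)).1 κ hκ).1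
    have h2 : ∫ z, ∑ l, X l z * dzb l (fun z : E (q + 3) => (κ (‖z‖ ^ 2) : ℂ)) z = 0 := by
      refine integral_eq_zero_of_ae ?_
      filter_upwards [ae0] with z hz
      simp only [dzb_kap hκ, Pi.zero_apply]
      rw [← mul_zero ((deriv κ (‖z‖ ^ 2) : ℝ) : ℂ), ← zX z hz, Finset.mul_sum]
      exact Finset.sum_congr rfl fun l _ => by ring
    rw [h2, zero_eq_neg] at h1
    simpa only [mul_comm] using h1
  obtain ⟨V, hV, zV, VD⟩ := L.div (q + 3) (by omega) ρ φ hρ hφ κ hκ k m Θ hm1 ΘW ΘH κΘ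
  -- the correction
  let h' : Arr (q + 3) (q + 1 + 1) := fun J z => ∑ l, V l z * eps (Fin.cons l J)
  have h'alt : ∀ z, altA fun J => h' J z := fun z => (A2.2 fun l => V l z).1
  have h'V : ∀ z (j : Fin (q + 3)), (-1) ^ (j : ℕ) * h' j.succAbove z = V j z :=
    fun z j => (A2.2 fun l => V l z).2 j
  have h'hom : ∀ J, Hom (E0 (q + 3)) m (-(q + 1 + 1 : ℕ)) (h' J) := fun J => by
    rw [show (-(q + 1 + 1 : ℕ) : ℤ) = 1 - (q + 3 : ℕ) by push_cast; ring]
    refine hom_sum _ fun l => ?_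
    simpa only [mul_comm] using hom_const_mul (hV l).2 (eps (Fin.cons l J))
  have h'W : ∀ J, WL ρ k (h' J) := fun J => wl_sum L.t1 oP (fun l => (hV l).1) _
  have h'L : ∀ J, L2 (E0 (q + 3)) (h' J) := fun J => hWL k _ (h'W J)
  have VL : ∀ l, L2 (E0 (q + 3)) (V l) := fun l => hWL k _ (hV l).1
  have b1 : -(2 * (q + 3 : ℕ) : ℤ) < m - (q + 1 + 1 : ℕ) := by push_cast at hm1 ⊢; omega
  have b2 : m - (q + 1 + 1 : ℕ) < -1 := by push_cast; omega
  have hDI : ∀ J, DI (h J) := fun J => (T3 (q + 3)).2.1 _ _ _ (hL J) (hhom J) b1 b2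
  have h'DI : ∀ J, DI (h' J) := fun J => (T3 (q + 3)).2.1 _ _ _ (h'L J) (h'hom J) b1 b2
  let g0 : Arr (q + 3) (q + 1 + 1) := fun J z => h J z - h' J z
  have g0w : ∀ z : E (q + 3), z ≠ 0 → ∀ (ξ : Fin (q + 3) → ℂ) (J : Fin (q + 3) → Fin (q + 3)),
      wdA ξ (fun K => g0 K z) J = eps J * (∑ l, X l z * ξ l - ∑ l, V l z * ξ l) := by
    intro z hz ξ J
    rw [(A2.1 _ (alt_sub (halt z hz) (h'alt z))).1 ξ J, ← Finset.sum_sub_distrib]
    congr 1
    refine Finset.sum_congr rfl fun l _ => ?_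
    rw [← h'V z l]
    simp only [X]
    ring
  have g0D : DB (E0 (q + 3)) g0 0 := by
    intro J ψ hψ
    rw [r0]
    have h1 : ∫ z, ∑ i : Fin (q + 1 + 1 + 1), (-1) ^ (i : ℕ) * g0 (i.removeNth J) z *
        dzb (J i) ψ z = ∫ z, eps J * (∑ l, X l z * dzb l ψ z - ∑ l, V l z * dzb l ψ z) := by
      refine integral_congr_ae ?_
      filter_upwards [ae0] with z hz
      rw [← g0w z hz (fun l => dzb l ψ z) J]
      exact Finset.sum_congr rfl fun i _ => by ring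
    have i1 := fun l => int0 _ _ (XL l) (tdz ψ hψ l)
    have i2 := fun l => int0 _ _ (VL l) (tdz ψ hψ l)
    rw [h1, integral_const_mul, integral_sub (integrable_finsetSum _ fun l _ => i1 l)
      (integrable_finsetSum _ fun l _ => i2 l), key ψ hψ, integral_finsetSum _ fun l _ => i2 l,
      VD ψ hψ]
    simp
  have g0F : Flux κ g0 := by
    intro J
    refine integral_eq_zero_of_ae ?_
    filter_upwards [ae0] with z hz
    have h1 := zX z hz
    have h2 := zV z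
    simp only [mul_comm (z _)] at h1 h2
    simp only [wd, Pi.zero_apply]
    rw [g0w z hz (fun l => z l) J, h1, h2]
    simp
  have nD : DB (E0 (q + 3)) (Nw g0) g0 :=
    (L.new _ (q + 1) m g0 fun J => hom_sub (hhom J) (h'hom J)).2.2 κ hκ
      (fun J => ((T0.1 _ (hL J)).2.2.2.1 _ (h'L J)).2) b1 b2 g0D g0F
  obtain ⟨A, -, hA⟩ := L.tc _ ρ hρ
  obtain ⟨nH, nA, -⟩ := L.new _ (q + 1) m h hhom
  let y : Arr (q + 3) (q + 1) := fun J x => Nw h J x - ∑ j, Tc ρ A j (h' (Fin.cons j J)) x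
  have yH : ∀ J, Hom (E0 (q + 3)) m (-(q + 1 : ℕ)) (y J) := fun J => by
    refine hom_sub (nH J) (hom_sum _ fun j => ?_)
    rw [show (-(q + 1 : ℕ) : ℤ) = -(q + 1 + 1 : ℕ) + 1 by push_cast; ring]
    exact (hA j _).2 _ _ (h'hom _)
  have yA : ∀ z, altA fun J => y J z := fun z => by
    refine alt_sub (nA halt z) fun J σ => ?_
    rw [Finset.mul_sum]
    refine Finset.sum_congr rfl fun j _ => ?_
    rw [← tc_const_mul]
    congr 1
    funext w
    exact ((L.al1 (q + 3) (q + 1) 0 0).2 _ (h'alt w)).2.2.1 j J σ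
  have yS : ∀ J, Sob (E0 (q + 3)) (k + 1) (y J) := fun J =>
    (((S0 (k + 1)).1 _ ((S0 (k + 1)).2.1 _ _ _ fun j _ =>
      L.ec _ _ j _ (hS (Fin.cons j J)) (hDI _))).2.2.1 _
      ((S0 (k + 1)).2.1 _ _ _ fun j _ => ((hA j _).1 k (h'W (Fin.cons j J)) (h'DI _)).1)).2
  have yL : ∀ J, L2 (E0 (q + 3)) (y J) := fun J => ((S0 (k + 1)).1 _ (yS J)).1
  have yD : DB (Om ρ) y h := by
    have B := (L.bm2 (q + 3) (by omega)).2.2
    refine ((L.frm _ (q + 1) _ oO cO.1).1 _ _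
      (((L.frm _ (q + 1) _ isOpen_E0 z0).1 _ _ nD).2.1 _ oO sub)).1 y h (fun J => ?_) fun J => ?_
    · filter_upwards [ae_all_iff.2 fun j => (B _ (hDI (Fin.cons j J)) j).1,
        ae_all_iff.2 fun j => (B _ (h'DI (Fin.cons j J)) j).1] with x h1 h2 hx
      simp only [y, Nw, ← Finset.sum_sub_distrib]
      refine Finset.sum_congr rfl fun j _ => ?_
      rw [((hA j _).1 k (h'W _) (h'DI _)).2 x hx]
      simp only [Ec, g0, mul_sub]
      exact integral_sub (h1 j) (h2 j)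
    · filter_upwards [(h'W J).2.1] with z h1 hz
      simp only [g0, h1 hz.2.le, sub_zero]
  have F0 := L.frm _ q _ oO cO.1
  have uD := (F0.1 _ _ (F0.2.2.2 m y h cO yD
    (fun J => ⟨toO _ (yL J), fun c hc z hz => yH J c hc z (sub hz)⟩)
    (fun J => toO _ (hL J)) fun z _ => yA z)).2.2.1 (-1)
  have uform : ∀ J, (fun z => -1 * ib y J z) =
      fun z => -1 * ∑ l, conj (z l) * y (Fin.cons l J) z := fun J => rfl
  refine ⟨fun J z => -1 * ib y J z, ⟨fun J => ?_, fun J σ z _ => ?_, fun J a z _ => ?_⟩,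
    fun J => ?_, (F0.1 _ _ uD).1 _ f (fun J => Eventually.of_forall fun _ _ => rfl) fun J => ?_⟩
  · rw [uform, show (-(q : ℕ) : ℤ) = -(q + 1 : ℕ) + 1 by push_cast; ring]
    exact hom_const_mul (hom_sum _ fun l => hom_conj (yH _) l) _
  · have := ((L.al1 (q + 3) q (fun l => conj (z l)) 0).2 _ (yA z)).1 J σ
    simp only [ib]
    rw [this]; ring
  · have := ((L.al1 (q + 3) q (fun l => conj (z l)) 0).2 _ (yA z)).2.1 J a
    simp only [ib, mul_left_comm _ (-1 : ℂ), ← Finset.mul_sum]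
    rw [this, mul_zero]
  · beta_reduce
    rw [uform]
    refine ((S0 (k + 1)).1 _ ((S0 (k + 1)).2.1 _ _ _ fun l _ => ?_)).2.2.2.1 (fun _ => -1)
      contDiffOn_const
    exact ((S0 (k + 1)).1 _ (yS _)).2.2.2.1 (fun z => conj (z l))
      (conjCLE.contDiff.comp (contDiff_coord l)).contDiffOn
  · refine Eventually.of_forall fun z hz => ?_
    have h1 := ((L.al1 (q + 3) (q + 1) (fun l => conj (z l)) fun j => thb j z).1
      fun J => f J z).2.1 (fun J a => hf.hor J a z hz.1) J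
    have h2 : ∑ l, conj (z l) * thb l z = 1 := by
      have h3 : ((‖z‖ ^ 2 : ℝ) : ℂ) ≠ 0 := by
        exact_mod_cast pow_ne_zero 2 (norm_ne_zero_iff.2 hz.1)
      rw [← div_self h3]
      nth_rewrite 1 [norm_sq_eq]
      rw [Finset.sum_div]
      exact Finset.sum_congr rfl fun l _ => by simp only [thb]; ring
    rw [h2, one_mul] at h1
    rw [← h1, neg_one_mul, neg_neg]
    rfl

end Pool.Agent.MP_fcd29e_an.H54
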