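import Pool.Agent.MP_fcd29e_an.H81.Spec2

/-! Smooth plurisubharmonic approximations of `-log dist(·, K)` by mollification. -/

set_option autoImplicit false

open Pool.Agent.MP_fcd29e_an.H81 MeasureTheory Complex Set Filter Topology Metric
open scoped ContDiff ComplexConjugate ENNReal NNReal Convolution

namespace Pool.Agent.MP_fcd29e_an.H54

theorem abs_log_sub_le {a b c : ℝ} (hc : 0 < c) (ha : c ≤ a) (hb : c ≤ b) :
    |Real.log a - Real.log b| ≤ |a - b| / c := by
  have key : ∀ x y : ℝ, c ≤ x → c ≤ y → Real.log x - Real.log y ≤ |x - y| / c := by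
    intro x y hx hy
    have hx0 : 0 < x := hc.trans_le hx
    have hy0 : 0 < y := hc.trans_le hy
    rw [← Real.log_div hx0.ne' hy0.ne']
    calc Real.log (x / y) ≤ x / y - 1 := Real.log_le_sub_one_of_pos (div_pos hx0 hy0)
      _ = (x - y) / y := by field_simp
      _ ≤ |x - y| / y := by gcongr; exact le_abs_self _
      _ ≤ |x - y| / c := by gcongr
  rw [abs_le]
  refine ⟨?_, key a b ha hb⟩
  have := key b a hb ha
  rw [abs_sub_comm] at this
  linarith

theorem infDist_sub_le {N : ℕ} (K : Set (E N)) (x y : E N) :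
    |infDist x K - infDist y K| ≤ ‖x - y‖ := by
  have := (lipschitz_infDist_pt K).dist_le_mul x y
  simpa [Real.dist_eq, dist_eq_norm] using this

section Moll
variable {N : ℕ} {η F : E N → ℝ} {ε : ℝ}

theorem int_mul (hη : Continuous η) (hc : HasCompactSupport η) {G : E N → ℝ} (hG : Continuous G) :
    Integrable fun t => η t * G t := (hη.mul hG).integrable_of_hasCompactSupport hc.mul_right

theorem abs_int_le (hη : Continuous η) (hc : HasCompactSupport η) (h0 : ∀ t, 0 ≤ η t)
    (h1 : ∫ t, η t = 1) (hs : ∀ t, η t ≠ 0 → ‖t‖ < ε) {G : E N → ℝ} {C : ℝ}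
    (hG : ∀ t, ‖t‖ < ε → |G t| ≤ C) : |∫ t, η t * G t| ≤ C := by
  have h2 : ‖∫ t, η t * G t‖ ≤ ∫ t, η t * C := by
    refine norm_integral_le_of_norm_le (int_mul hη hc continuous_const)
      (Eventually.of_forall fun t => ?_)
    by_cases ht : η t = 0
    · simp [ht]
    · rw [Real.norm_eq_abs, abs_mul, abs_of_nonneg (h0 t)]
      exact mul_le_mul_of_nonneg_left (hG t (hs t ht)) (h0 t)
  rwa [integral_mul_const, h1, one_mul] at h2

theorem continuous_S4 (hF : Continuous F) (z w : E N) (r : ℝ) :
    Continuous fun t => S4 F (z - t) w 0 r := by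
  unfold S4
  fun_prop

theorem S4_conv (hη : Continuous η) (hc : HasCompactSupport η) (hF : Continuous F) (z w : E N)
    (r : ℝ) : S4 (fun x => ∫ t, η t * F (x - t)) z w 0 r = ∫ t, η t * S4 F (z - t) w 0 r := by
  have i : ∀ x : E N, Integrable fun t => η t * F (x - t) := fun x =>
    int_mul hη hc (hF.comp (continuous_const.sub continuous_id))
  have e : ∀ a b t : E N, z - t + a + b = z + a + b - t := fun a b t => by abel
  simp only [S4, e, mul_sub, mul_add, mul_left_comm _ (4 : ℝ)]
  rw [integral_sub, integral_add, integral_add, integral_add (i _) (i _), integral_const_mul]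
  · exact (i _).add (i _)
  · exact i _
  · exact ((i _).add (i _)).add (i _)
  · exact i _
  · exact (((i _).add (i _)).add (i _)).add (i _)
  · exact (i z).const_mul 4

theorem S4_congr {f g : E N → ℝ} {x w : E N} {r : ℝ} (hr : 0 < r)
    (h : ∀ y, ‖y - x‖ ≤ r * ‖w‖ → f y = g y) : S4 f x w 0 r = S4 g x w 0 r := by
  have h1 : ∀ (s : ℝ) (v : E N), |s| = r → ‖v‖ = ‖w‖ → f (x + s • v) = g (x + s • v) :=
    fun s v hs hv => h _ (by rw [add_sub_cancel_left, norm_smul, Real.norm_eq_abs, hs, hv])
  have hI : ‖I • w‖ = ‖w‖ := by rw [norm_smul, norm_I, one_mul]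
  have hp : |r| = r := abs_of_pos hr
  have hn : |-r| = r := by rw [abs_neg, hp]
  simp only [S4, neg_zero, smul_zero, add_zero]
  rw [h1 r w hp rfl, h1 (-r) w hn rfl, h1 r _ hp hI, h1 (-r) _ hn hI,
    h x (by rw [sub_self, norm_zero]; positivity)]

end Moll

theorem d5 (_L : Lv0) (hp : StmtFP) (h : StmtD5a) : StmtD5 := by
  intro N ρ K hρ hK hPN hT ε hε
  let φ : ContDiffBump (0 : E N) := ⟨ε / 2, ε, by positivity, by linarith⟩
  let η : E N → ℝ := φ.normed volume
  have hηs : ContDiff ℝ ∞ η := φ.contDiff_normed
  have hη : Continuous η := hηs.continuous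
  have hc : HasCompactSupport η := φ.hasCompactSupport_normed
  have h0 : ∀ t, 0 ≤ η t := φ.nonneg_normed
  have h1 : ∫ t, η t = 1 := φ.integral_normed
  have hs : ∀ t, η t ≠ 0 → ‖t‖ < ε := fun t ht => by
    have : t ∈ Function.support η := ht
    rw [φ.support_normed_eq] at this
    simpa using this
  let F : E N → ℝ := fun y => -Real.log (max (infDist y K) (ε / 2))
  have hF : Continuous F := by
    refine (Continuous.log ((continuous_infDist_pt K).max continuous_const) fun y => ?_).neg
    exact (lt_max_of_lt_right (by positivity)).ne'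
  have hFe : ∀ y, ε / 2 ≤ infDist y K → F y = -Real.log (infDist y K) := fun y hy => by
    simp only [F, max_eq_left hy]
  have low : ∀ x y : E N, infDist x K - ‖y - x‖ ≤ infDist y K := fun x y => by
    have := (abs_le.1 (infDist_sub_le K y x)).1
    linarith
  have lowt : ∀ z t : E N, ‖t‖ < ε → infDist z K - ε < infDist (z - t) K := fun z t ht => by
    have := low z (z - t)
    rw [sub_sub_cancel_left, norm_neg] at this
    linarith
  let V : E N → ℝ := fun x => ∫ t, η t * F (x - t)
  have hV : ContDiff ℝ ∞ V :=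
    hc.contDiff_convolution_left (ContinuousLinearMap.lsmul ℝ ℝ) hηs hF.locallyIntegrable
  have i : ∀ x : E N, Integrable fun t => η t * F (x - t) := fun x =>
    int_mul hη hc (hF.comp (continuous_const.sub continuous_id))
  refine ⟨V, hV.contDiffOn, fun z hz => ?_, fun z hz => ?_, fun z hz L => ?_⟩
  · have e : V z + Real.log (infDist z K) = ∫ t, η t * (F (z - t) + Real.log (infDist z K)) := by
      simp only [mul_add]
      rw [integral_add (i z) (int_mul hη hc continuous_const), integral_mul_const, h1, one_mul]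
    rw [e]
    refine abs_int_le hη hc h0 h1 hs fun t ht => ?_
    have h2 := lowt z t ht
    have h3 := infDist_sub_le K z (z - t)
    rw [sub_sub_cancel] at h3
    rw [hFe _ (by linarith), neg_add_eq_sub]
    refine (abs_log_sub_le hε (by linarith) (by linarith)).trans ?_
    rw [div_le_one hε]
    linarith
  · have hd : 0 < infDist z K := by linarith
    refine norm_fderiv_le_of_lip' ℝ (by positivity) ?_
    filter_upwards [ball_mem_nhds z (show 0 < infDist z K / 4 by positivity)] with x hx
    rw [mem_ball, dist_eq_norm] at hx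
    have e : V x - V z = ∫ t, η t * (F (x - t) - F (z - t)) := by
      simp only [mul_sub]
      rw [integral_sub (i x) (i z)]
    rw [e, Real.norm_eq_abs]
    refine abs_int_le hη hc h0 h1 hs fun t ht => ?_
    have h2 := lowt z t ht
    have h3 := low (z - t) (x - t)
    have h4 := infDist_sub_le K (z - t) (x - t)
    rw [sub_sub_sub_cancel_right] at h3 h4
    rw [norm_sub_rev] at h4
    rw [hFe _ (by linarith), hFe _ (by linarith), neg_sub_neg]
    refine (abs_log_sub_le (c := infDist z K / 4) (by positivity) (by linarith)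
      (by linarith)).trans ?_
    rw [div_div_eq_mul_div, div_mul_eq_mul_div, mul_comm 4]
    gcongr
  · have hd : 0 < infDist z K := by linarith
    let w : E N := WithLp.toLp 2 L
    obtain ⟨ha, hb⟩ := h N ρ K hρ hK hPN hT w
    have lim := ((hp N).1 V z w 0 hV.contDiffAt).mono_left
      (nhdsWithin_mono 0 fun r (hr : r ∈ Ioi (0 : ℝ)) => (ne_of_gt hr : r ≠ 0))
    have small : ∀ᶠ r in 𝓝[>] (0 : ℝ), 0 < r ∧ r * ‖w‖ < ε / 2 := by
      refine eventually_mem_nhdsWithin.and (Eventually.filter_mono nhdsWithin_le_nhds ?_)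
      have : Tendsto (fun r : ℝ => r * ‖w‖) (𝓝 0) (𝓝 (0 * ‖w‖)) := tendsto_id.mul_const _
      rw [zero_mul] at this
      exact this.eventually_lt_const (by positivity)
    have cg : ∀ t r, ‖t‖ < ε → 0 < r → r * ‖w‖ < ε / 2 →
        S4 F (z - t) w 0 r = S4 (fun y => -Real.log (infDist y K)) (z - t) w 0 r :=
      fun t r ht hr hw => S4_congr hr fun y hy => hFe y (by
        have h2 := lowt z t ht
        have h3 := low (z - t) y
        linarith)
    have cu : ∀ r, Continuous fun t => min (S4 F (z - t) w 0 r / r ^ 2) 0 := fun r =>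
      ((continuous_S4 hF z w r).div_const _).min continuous_const
    have lim2 : Tendsto (fun r => ∫ t, η t * min (S4 F (z - t) w 0 r / r ^ 2) 0) (𝓝[>] 0)
        (𝓝 (∫ _ : E N, (0 : ℝ))) := by
      refine tendsto_integral_filter_of_dominated_convergence
        (fun t => η t * (2 * ‖w‖ ^ 2 / ε ^ 2))
        (Eventually.of_forall fun r => (hη.mul (cu r)).aestronglyMeasurable) ?_
        (int_mul hη hc continuous_const) ?_
      · filter_upwards [small] with r hr
        refine Eventually.of_forall fun t => ?_
        by_cases ht : η t = 0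
        · simp [ht]
        have h2 := lowt z t (hs t ht)
        have h3 := hb (z - t) r hr.1 (by linarith [hr.2])
        rw [← cg t r (hs t ht) hr.1 hr.2] at h3
        rw [Real.norm_eq_abs, abs_mul, abs_of_nonneg (h0 t), abs_of_nonpos (min_le_right _ _)]
        refine mul_le_mul_of_nonneg_left ?_ (h0 t)
        have hr2 : 0 < r ^ 2 := pow_pos hr.1 2
        have h4 : 2 * ‖w‖ ^ 2 / infDist (z - t) K ^ 2 ≤ 2 * ‖w‖ ^ 2 / ε ^ 2 := by
          gcongr
          linarith
        rw [neg_le, le_min_iff, le_div_iff₀ hr2]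
        refine ⟨le_trans ?_ h3, neg_nonpos.2 (by positivity)⟩
        rw [neg_mul, neg_le_neg_iff]
        exact mul_le_mul_of_nonneg_right h4 hr2.le
      · filter_upwards [(Measure.measurePreserving_sub_left volume z).quasiMeasurePreserving.ae ha]
          with t ht
        by_cases ht0 : η t = 0
        · simp [ht0]
        have h2 := lowt z t (hs t ht0)
        suffices h6 : Tendsto (fun r => min (S4 F (z - t) w 0 r / r ^ 2) 0) (𝓝[>] 0) (𝓝 0) by
          simpa only [mul_zero] using h6.const_mul (η t)
        refine tendsto_order.2 ⟨fun a ha => ?_, fun a ha => ?_⟩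
        · have h5 := ht (by linarith) (-a / 2) (by linarith)
          filter_upwards [small, h5] with r hr h3
          rw [← cg t r (hs t ht0) hr.1 hr.2] at h3
          have hr2 : 0 < r ^ 2 := pow_pos hr.1 2
          rw [lt_min_iff, lt_div_iff₀ hr2]
          refine ⟨lt_of_lt_of_le ?_ h3, ha⟩
          nlinarith
        · exact Eventually.of_forall fun r => (min_le_right _ _).trans_lt ha
    rw [integral_zero] at lim2
    have fin := le_of_tendsto_of_tendsto lim2 lim (Eventually.of_forall fun r => by
      change _ ≤ S4 V z w 0 r / r ^ 2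
      rw [S4_conv hη hc hF, ← integral_div]
      refine integral_mono (int_mul hη hc (cu r))
        ((int_mul hη hc (continuous_S4 hF z w r)).div_const _) fun t => ?_
      simp only [mul_div_assoc]
      exact mul_le_mul_of_nonneg_left (min_le_left _ _) (h0 t))
    have : (fun j => w j) = L := rfl
    rw [this] at fin
    linarith

end Pool.Agent.MP_fcd29e_an.H54
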